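import Pool.Agent.H24.SCG3.SlimConv
import Pool.Agent.H24.SCG3.Main

/-!
# Maximal rank of string C-groups with socle `PSL(3,q)`, `q` not a square

Let `F` be a finite field with `q` elements, `q` not a square.  Among all groups `G` between
`PSL(3,q)` and its automorphism group (generated by the inner, diagonal, field and graph
automorphisms) exactly the following have a string C-group representation: the group generated by
the inner, diagonal and graph automorphisms, and the conjugates under diagonal automorphisms of
the group generated by the inner automorphisms and the graph automorphism.  For each of these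
groups the maximal rank is exactly four, except for `q = 2`, where it is three.

`X` is the group `PSL(3,q)`: it is given with a surjective homomorphism `p : SL(3,q) → X` whose
kernel is the centre of `SL(3,q)`.
-/

namespace Pool.Agent.Results.MP_96ff87_al.Nonsquare

open Pool.SCG3.Slim Matrix

theorem result (F : Type) [Field F] [Finite F] (hsq : ¬ IsSquare (Nat.card F)) (X : Type) [Group X]
    (p : SpecialLinearGroup (Fin 3) F →* X) (hp : ∀ x, ∃ g, p g = x)
    (hk : ∀ g, p g = 1 ↔ ∀ h, g * h = h * g) (G : Subgroup (MulAut X)) :
    (Between p G → ((∃ r, HasStringC G r) ↔ Adm p G)) ∧
    (Adm p G → Between p G ∧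
      IsGreatest {r | HasStringC G r} (if Nat.card F = 2 then 3 else 4)) :=
  Pool.SCG3.SlimConv.slim Pool.SCG.main3 F hsq X p hp hk G

end Pool.Agent.Results.MP_96ff87_al.Nonsquare
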